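import Mathlib

/-!
# MP_7c440d_co: the geometric thickness of `K₁₃` is at most 3 (the proof)

An explicit straight-line drawing of `K₁₃` on a small integer grid, with a 3-colouring of its 78
edges such that no two edges of the same colour cross.
-/

namespace Pool.Agent.Helper67.K13

/-- `p` places the vertices of `G` in the plane as a geometric drawing: different vertices get
different points, and no edge (closed segment) passes through a vertex other than its two
endpoints. -/
def IsGeometricDrawing {V : Type*} (G : SimpleGraph V) (p : V → ℝ × ℝ) : Prop :=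
  Function.Injective p ∧
    ∀ a b : V, G.Adj a b → ∀ v : V, v ≠ a → v ≠ b → p v ∉ segment ℝ (p a) (p b)

/-- The segments `p a, p b` and `p c, p d` share a point that is not a common endpoint of the
edges `ab` and `cd`. -/
def Cross {V : Type*} (p : V → ℝ × ℝ) (a b c d : V) : Prop :=
  ∃ x : ℝ × ℝ, x ∈ segment ℝ (p a) (p b) ∧ x ∈ segment ℝ (p c) (p d) ∧
    ¬ ∃ v : V, (v = a ∨ v = b) ∧ (v = c ∨ v = d) ∧ x = p v

/-- `G` has a geometric drawing whose edges can be coloured with `k` colours so that no two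
different edges of the same colour cross. -/
def DrawableIn {V : Type*} (G : SimpleGraph V) (k : ℕ) : Prop :=
  ∃ (p : V → ℝ × ℝ) (col : Sym2 V → Fin k), IsGeometricDrawing G p ∧
    ∀ a b c d : V, G.Adj a b → G.Adj c d → s(a, b) ≠ s(c, d) → col s(a, b) = col s(c, d) →
      ¬ Cross p a b c d

/-- The geometric thickness: the least `k` such that `G` is drawable in `k` plane layers. -/
noncomputable def geometricThickness {V : Type*} (G : SimpleGraph V) : ℕ :=
  sInf {k : ℕ | DrawableIn G k}

/-! ### Orientation and crossing -/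

/-- Twice the signed area of a triangle. -/
def area {R : Type*} [Ring R] (a b c : R × R) : R :=
  (b.1 - a.1) * (c.2 - a.2) - (b.2 - a.2) * (c.1 - a.1)

lemma area_segment (u v a b x : ℝ × ℝ) (hx : x ∈ segment ℝ a b) :
    ∃ s t : ℝ, 0 ≤ s ∧ 0 ≤ t ∧ s + t = 1 ∧ x = s • a + t • b ∧
      area u v x = s * area u v a + t * area u v b := by
  obtain ⟨s, t, hs, ht, hst, rfl⟩ := hx
  refine ⟨s, t, hs, ht, hst, rfl, ?_⟩
  simp only [area, Prod.fst_add, Prod.snd_add, Prod.smul_fst, Prod.smul_snd, smul_eq_mul]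
  have : t = 1 - s := by linarith
  subst this
  ring

lemma area_left (u v x : ℝ × ℝ) (hx : x ∈ segment ℝ u v) : area u v x = 0 := by
  obtain ⟨s, t, hs, ht, hst, rfl, h⟩ := area_segment u v u v x hx
  rw [h]
  simp only [area]
  ring

/-- If `c` and `d` lie strictly on the same side of the line `ab`, the closed segments `ab` and
`cd` are disjoint. -/
lemma disjoint_of_same_side {a b c d : ℝ × ℝ} (h : 0 < area a b c * area a b d) (x : ℝ × ℝ)
    (h1 : x ∈ segment ℝ a b) (h2 : x ∈ segment ℝ c d) : False := by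
  have h0 := area_left a b x h1
  obtain ⟨s, t, hs, ht, hst, -, h3⟩ := area_segment a b c d x h2
  rw [h0] at h3
  rcases lt_or_ge 0 (area a b c) with hc | hc
  · have hd : 0 < area a b d := by
      by_contra hd
      push Not at hd
      nlinarith
    have : 0 < s * area a b c + t * area a b d := by
      rcases eq_or_lt_of_le hs with hs0 | hs0
      · have ht1 : t = 1 := by linarith
        rw [← hs0, ht1]; linarith
      · have := mul_pos hs0 hc
        have := mul_nonneg ht hd.le
        linarith
    linarith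
  · have hc' : area a b c < 0 := by
      rcases eq_or_lt_of_le hc with hc0 | hc0
      · rw [hc0] at h; simp at h
      · exact hc0
    have hd : area a b d < 0 := by
      by_contra hd
      push Not at hd
      nlinarith
    have : s * area a b c + t * area a b d < 0 := by
      rcases eq_or_lt_of_le hs with hs0 | hs0
      · have ht1 : t = 1 := by linarith
        rw [← hs0, ht1]; linarith
      · have := mul_neg_of_pos_of_neg hs0 hc'
        have := mul_nonpos_of_nonneg_of_nonpos ht hd.le
        linarith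
    linarith

/-- Two segments with a common endpoint `a` that are not collinear meet only in `a`. -/
lemma eq_of_common {a b d x : ℝ × ℝ} (h : area a b d ≠ 0) (h1 : x ∈ segment ℝ a b)
    (h2 : x ∈ segment ℝ a d) : x = a := by
  have h0 := area_left a b x h1
  obtain ⟨s, t, hs, ht, hst, hx, h3⟩ := area_segment a b a d x h2
  have haa : area a b a = 0 := by simp only [area]; ring
  rw [h0, haa, mul_zero, zero_add] at h3
  have ht0 : t = 0 := by
    rcases mul_eq_zero.1 h3.symm with h | h'
    · exact h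
    · exact absurd h' h
  have hs1 : s = 1 := by linarith
  rw [hx, ht0, hs1]
  simp

/-! ### Integer data -/

/-- The drawing: 13 points of the integer grid. -/
def pt : Fin 13 → ℤ × ℤ :=
  ![(127, 27), (-87, 96), (-40, -123), (-29, 41), (-21, -46), (50, 5), (13, 10), (-15, 6),
    (2, -16), (10, 5), (-9, 6), (-1, -11), (0, 0)]

/-- The colours of the edges (the diagonal entries are irrelevant). -/
def colMat : Fin 13 → Fin 13 → Fin 3 :=
  ![![0, 1, 0, 0, 1, 1, 1, 0, 0, 1, 0, 0, 1],
    ![1, 0, 2, 2, 1, 2, 1, 2, 1, 1, 2, 1, 2],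
    ![0, 2, 0, 0, 0, 2, 2, 2, 0, 2, 2, 0, 0],
    ![0, 2, 0, 0, 0, 2, 2, 0, 1, 1, 1, 1, 2],
    ![1, 1, 0, 0, 0, 1, 2, 0, 1, 2, 2, 2, 0],
    ![1, 2, 2, 2, 1, 0, 2, 0, 1, 0, 0, 0, 1],
    ![1, 1, 2, 2, 2, 2, 0, 0, 2, 2, 0, 2, 2],
    ![0, 2, 2, 0, 0, 0, 0, 0, 1, 0, 0, 1, 0],
    ![0, 1, 0, 1, 1, 1, 2, 1, 0, 2, 1, 1, 1],
    ![1, 1, 2, 1, 2, 0, 2, 0, 2, 0, 1, 0, 1],
    ![0, 2, 2, 1, 2, 0, 0, 0, 1, 1, 0, 2, 2],
    ![0, 1, 0, 1, 2, 0, 2, 1, 1, 0, 2, 0, 0],
    ![1, 2, 0, 2, 0, 1, 2, 0, 1, 1, 2, 0, 0]]

lemma colMat_symm : ∀ a b : Fin 13, colMat a b = colMat b a := by decide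

/-- No three of the points are collinear. -/
lemma area_ne : ∀ a b c : Fin 13, a < b → b < c → area (pt a) (pt b) (pt c) ≠ 0 := by
  decide

/-- Two vertex-disjoint edges of the same colour: the endpoints of one of them lie strictly on the
same side of the other. -/
lemma same_side : ∀ a b c d : Fin 13, a < b → c < d → a < c → c ≠ b → d ≠ b →
    colMat a b = colMat c d →
    0 < area (pt a) (pt b) (pt c) * area (pt a) (pt b) (pt d) ∨
    0 < area (pt c) (pt d) (pt a) * area (pt c) (pt d) (pt b) := by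
  decide

/-- The drawing, with real coordinates. -/
def q (i : Fin 13) : ℝ × ℝ := (((pt i).1 : ℝ), ((pt i).2 : ℝ))

lemma area_q (a b c : Fin 13) : area (q a) (q b) (q c) = ((area (pt a) (pt b) (pt c) : ℤ) : ℝ) := by
  simp only [area, q]
  push_cast
  ring

lemma area_ne' : ∀ a b c : Fin 13, a ≠ b → b ≠ c → a ≠ c → area (pt a) (pt b) (pt c) ≠ 0 := by
  intro a b c hab hbc hac
  have e1 : ∀ x y z : ℤ × ℤ, area x y z = - area y x z := by intro x y z; simp only [area]; ring
  have e2 : ∀ x y z : ℤ × ℤ, area x y z = - area x z y := by intro x y z; simp only [area]; ring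
  have key := area_ne
  intro h0
  rcases lt_or_gt_of_ne hab with h1 | h1 <;> rcases lt_or_gt_of_ne hbc with h2 | h2 <;>
    rcases lt_or_gt_of_ne hac with h3 | h3
  · exact key a b c h1 h2 h0
  · exact absurd (h1.trans h2) (not_lt.2 h3.le)
  · exact key a c b h3 h2 (by rw [e2]; linarith)
  · exact key c a b h3 h1 (by rw [e1, e2, h0]; norm_num)
  · exact key b a c h1 h3 (by rw [e1]; linarith)
  · exact key b c a h2 h3 (by rw [e2, e1, h0]; norm_num)
  · exact absurd (h2.trans h1) (not_lt.2 h3.le)
  · exact key c b a h2 h1 (by rw [e1, e2, e1, h0]; norm_num)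

lemma area_q_ne (a b c : Fin 13) (hab : a ≠ b) (hbc : b ≠ c) (hac : a ≠ c) :
    area (q a) (q b) (q c) ≠ 0 := by
  rw [area_q]
  exact_mod_cast area_ne' a b c hab hbc hac

lemma no_meet_aux (a b c d : Fin 13) (hab : a < b) (hcd : c < d) (hac : a < c) (hcb : c ≠ b)
    (hdb : d ≠ b) (hcol : colMat a b = colMat c d) (x : ℝ × ℝ)
    (h1 : x ∈ segment ℝ (q a) (q b)) (h2 : x ∈ segment ℝ (q c) (q d)) : False := by
  rcases same_side a b c d hab hcd hac hcb hdb hcol with h | h
  · refine disjoint_of_same_side (a := q a) (b := q b) (c := q c) (d := q d) ?_ x h1 h2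
    rw [area_q, area_q]
    exact_mod_cast h
  · refine disjoint_of_same_side (a := q c) (b := q d) (c := q a) (d := q b) ?_ x h2 h1
    rw [area_q, area_q]
    exact_mod_cast h

lemma no_meet_sorted (a b c d : Fin 13) (hab : a < b) (hcd : c < d) (hac : a ≠ c) (had : a ≠ d)
    (hbc : b ≠ c) (hbd : b ≠ d) (hcol : colMat a b = colMat c d) (x : ℝ × ℝ)
    (h1 : x ∈ segment ℝ (q a) (q b)) (h2 : x ∈ segment ℝ (q c) (q d)) : False := by
  rcases lt_or_gt_of_ne hac with h | h
  · exact no_meet_aux a b c d hab hcd h hbc.symm hbd.symm hcol x h1 h2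
  · exact no_meet_aux c d a b hcd hab h had hbd hcol.symm x h2 h1

lemma no_meet (a b c d : Fin 13) (hab : a ≠ b) (hcd : c ≠ d) (hac : a ≠ c) (had : a ≠ d)
    (hbc : b ≠ c) (hbd : b ≠ d) (hcol : colMat a b = colMat c d) (x : ℝ × ℝ)
    (h1 : x ∈ segment ℝ (q a) (q b)) (h2 : x ∈ segment ℝ (q c) (q d)) : False := by
  rcases lt_or_gt_of_ne hab with h | h <;> rcases lt_or_gt_of_ne hcd with h' | h'
  · exact no_meet_sorted a b c d h h' hac had hbc hbd hcol x h1 h2
  · rw [segment_symm] at h2
    rw [colMat_symm c d] at hcol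
    exact no_meet_sorted a b d c h h' had hac hbd hbc hcol x h1 h2
  · rw [segment_symm] at h1
    rw [colMat_symm a b] at hcol
    exact no_meet_sorted b a c d h h' hbc hbd hac had hcol x h1 h2
  · rw [segment_symm] at h1 h2
    rw [colMat_symm a b, colMat_symm c d] at hcol
    exact no_meet_sorted b a d c h h' hbd hbc had hac hcol x h1 h2

lemma exists_third : ∀ a b : Fin 13, ∃ c : Fin 13, c ≠ a ∧ c ≠ b := by decide

lemma q_injective : Function.Injective q := by
  intro a b h
  by_contra hab
  obtain ⟨c, hca, hcb⟩ := exists_third a b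
  refine area_q_ne a b c hab hcb.symm hca.symm ?_
  rw [h]
  simp only [area]
  ring

/-- The colouring as a function on unordered pairs. -/
def col : Sym2 (Fin 13) → Fin 3 := Sym2.lift ⟨colMat, colMat_symm⟩

/-- `K₁₃` has a geometric drawing in three plane layers. -/
theorem drawable : DrawableIn (⊤ : SimpleGraph (Fin 13)) 3 := by
  refine ⟨q, col, ⟨q_injective, ?_⟩, ?_⟩
  · intro a b hab v hva hvb hv
    rw [SimpleGraph.top_adj] at hab
    exact area_q_ne a b v hab hvb.symm hva.symm (area_left _ _ _ hv)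
  · intro a b c d hab hcd hne hcol hcross
    rw [SimpleGraph.top_adj] at hab hcd
    obtain ⟨x, h1, h2, h3⟩ := hcross
    have hcol' : colMat a b = colMat c d := hcol
    by_cases hac : a = c
    · subst hac
      have hbd : b ≠ d := by rintro rfl; exact hne rfl
      exact h3 ⟨a, Or.inl rfl, Or.inl rfl, eq_of_common (area_q_ne a b d hab hbd hcd) h1 h2⟩
    by_cases had : a = d
    · subst had
      have hbc : b ≠ c := by rintro rfl; exact hne Sym2.eq_swap
      rw [segment_symm] at h2
      exact h3 ⟨a, Or.inl rfl, Or.inr rfl, eq_of_common (area_q_ne a b c hab hbc hcd.symm) h1 h2⟩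
    by_cases hbc : b = c
    · subst hbc
      rw [segment_symm] at h1
      exact h3 ⟨b, Or.inr rfl, Or.inl rfl, eq_of_common (area_q_ne b a d hab.symm had hcd) h1 h2⟩
    by_cases hbd : b = d
    · subst hbd
      rw [segment_symm] at h1 h2
      exact h3 ⟨b, Or.inr rfl, Or.inr rfl,
        eq_of_common (area_q_ne b a c hab.symm hac hcd.symm) h1 h2⟩
    exact no_meet a b c d hab hcd hac had hbc hbd hcol' x h1 h2

/-- **The geometric thickness of `K₁₃` is at most 3**: the complete graph on 13 vertices has a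
geometric drawing whose edges split into 3 plane layers. -/
theorem main : DrawableIn (⊤ : SimpleGraph (Fin 13)) 3 ∧
    geometricThickness (⊤ : SimpleGraph (Fin 13)) ≤ 3 :=
  ⟨drawable, Nat.sInf_le drawable⟩

end Pool.Agent.Helper67.K13
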