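import Mathlib

/-!
# MP_530095_co: first-order asymptotics of `n(Δ,1,r)`, uniformly in `r` (the proof)

We prove that `n(Δ,1,r) / (Δ (r - 1)) → 1` as `Δ → ∞`, uniformly for all `r ≥ 2`.  The lower bound
comes from blown-up transversal designs over `ZMod m`, with `m` coprime to `(k - 1)!`, whose groups
are filled recursively.
-/

namespace Pool.Agent.Helper67.UA

open Finset

/-- `E` is the edge set of a `(Δ,1,r)`-hypergraph with vertex set `V`: the edges are nonempty, any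
two distinct vertices lie in a common edge, every vertex lies in at most `Δ` edges, and every edge
has at most `r` vertices. -/
structure IsDiamOne {V : Type} [Fintype V] [DecidableEq V] (Δ r : ℕ)
    (E : Finset (Finset V)) : Prop where
  nonempty : ∀ e ∈ E, e.Nonempty
  covers : ∀ x y : V, x ≠ y → ∃ e ∈ E, x ∈ e ∧ y ∈ e
  degree : ∀ x : V, (E.filter (fun e => x ∈ e)).card ≤ Δ
  rank : ∀ e ∈ E, e.card ≤ r

/-- `n(Δ,1,r)`: the largest number of vertices of a `(Δ,1,r)`-hypergraph. -/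
noncomputable def nMax (Δ r : ℕ) : ℕ :=
  sSup {n : ℕ | ∃ E : Finset (Finset (Fin n)), IsDiamOne Δ r E}

/-- There is a `(Δ,1,r)`-hypergraph with `n` vertices. -/
def Good (Δ r n : ℕ) : Prop := ∃ E : Finset (Finset (Fin n)), IsDiamOne Δ r E

/-! ### Basic facts -/

/-- A family of sets (repetitions allowed) on a possibly larger vertex type yields a
hypergraph. -/
lemma good_of_family {V ι : Type} [Fintype V] [DecidableEq V] [Fintype ι] {Δ r n : ℕ}
    (f : Fin n ↪ V) (e : ι → Finset V)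
    (hcov : ∀ x y : V, x ≠ y → ∃ i, x ∈ e i ∧ y ∈ e i)
    (hdeg : ∀ x : V, (Finset.univ.filter (fun i => x ∈ e i)).card ≤ Δ)
    (hrank : ∀ i, (e i).card ≤ r) : Good Δ r n := by
  classical
  set g : ι → Finset (Fin n) := fun i => Finset.univ.filter (fun x : Fin n => f x ∈ e i) with hg
  refine ⟨(Finset.univ.image g).filter (fun s => s.Nonempty), ?_, ?_, ?_, ?_⟩
  · intro s hs
    exact (Finset.mem_filter.1 hs).2
  · intro x y hxy
    obtain ⟨i, hx, hy⟩ := hcov (f x) (f y) (fun h => hxy (f.injective h))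
    refine ⟨g i, ?_, ?_, ?_⟩
    · rw [Finset.mem_filter]
      refine ⟨Finset.mem_image_of_mem g (Finset.mem_univ i), ⟨x, ?_⟩⟩
      simp [hg, hx]
    · simp [hg, hx]
    · simp [hg, hy]
  · intro x
    refine le_trans ?_ (hdeg (f x))
    have hsub : ((Finset.univ.image g).filter (fun s => s.Nonempty)).filter (fun s => x ∈ s)
        ⊆ (Finset.univ.filter (fun i => f x ∈ e i)).image g := by
      intro s hs
      rw [Finset.mem_filter, Finset.mem_filter, Finset.mem_image] at hs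
      obtain ⟨⟨⟨i, _, rfl⟩, _⟩, hx⟩ := hs
      refine Finset.mem_image_of_mem g ?_
      simpa [hg] using hx
    exact le_trans (Finset.card_le_card hsub) Finset.card_image_le
  · intro s hs
    rw [Finset.mem_filter, Finset.mem_image] at hs
    obtain ⟨⟨i, _, rfl⟩, _⟩ := hs
    refine le_trans ?_ (hrank i)
    refine Finset.card_le_card_of_injOn f ?_ f.injective.injOn
    intro x hx
    simpa [hg] using hx

lemma good_mono {Δ Δ' r r' n n' : ℕ} (h : Good Δ r n) (hΔ : Δ ≤ Δ') (hr : r ≤ r')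
    (hn : n' ≤ n) : Good Δ' r' n' := by
  obtain ⟨E, hE⟩ := h
  refine good_of_family (V := Fin n) (ι := {e // e ∈ E}) (Fin.castLEEmb hn) (fun e => e.1) ?_ ?_ ?_
  · intro x y hxy
    obtain ⟨e, he, hx, hy⟩ := hE.covers x y hxy
    exact ⟨⟨e, he⟩, hx, hy⟩
  · intro x
    refine le_trans (le_trans ?_ (hE.degree x)) hΔ
    refine Finset.card_le_card_of_injOn (fun e => e.1) ?_ Subtype.val_injective.injOn
    intro e he
    simp only [Finset.coe_filter, Finset.mem_univ, true_and, Set.mem_ofPred_eq] at he ⊢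
    exact ⟨e.2, he⟩
  · intro e
    exact le_trans (hE.rank e.1 e.2) hr

lemma good_single {r n : ℕ} (h : n ≤ r) : Good 1 r n := by
  refine good_of_family (V := Fin n) (ι := Unit) (Function.Embedding.refl _)
    (fun _ => Finset.univ) ?_ ?_ ?_
  · intro x y _
    exact ⟨(), Finset.mem_univ _, Finset.mem_univ _⟩
  · intro x
    exact le_trans (Finset.card_filter_le _ _) (by simp)
  · intro _
    simpa using h

lemma good_le {Δ r n : ℕ} (h : Good Δ r n) : n ≤ 1 + Δ * (r - 1) := by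
  classical
  obtain ⟨E, hE⟩ := h
  rcases Nat.eq_zero_or_pos n with rfl | hn
  · omega
  let x : Fin n := ⟨0, hn⟩
  have hsub : (Finset.univ.erase x : Finset (Fin n)) ⊆
      (E.filter (fun e => x ∈ e)).biUnion (fun e => e.erase x) := by
    intro y hy
    obtain ⟨e, he, hx, hy'⟩ := hE.covers x y (Finset.ne_of_mem_erase hy).symm
    rw [Finset.mem_biUnion]
    exact ⟨e, Finset.mem_filter.2 ⟨he, hx⟩, Finset.mem_erase.2 ⟨Finset.ne_of_mem_erase hy, hy'⟩⟩
  have h1 := Finset.card_le_card hsub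
  rw [Finset.card_erase_of_mem (Finset.mem_univ x), Finset.card_univ, Fintype.card_fin] at h1
  have h2 : ((E.filter (fun e => x ∈ e)).biUnion (fun e => e.erase x)).card
      ≤ (E.filter (fun e => x ∈ e)).card * (r - 1) := by
    refine Finset.card_biUnion_le_card_mul _ _ _ ?_
    intro e he
    rw [Finset.mem_filter] at he
    rw [Finset.card_erase_of_mem he.2]
    exact Nat.sub_le_sub_right (hE.rank e he.1) 1
  have h3 : (E.filter (fun e => x ∈ e)).card * (r - 1) ≤ Δ * (r - 1) :=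
    Nat.mul_le_mul_right _ (hE.degree x)
  omega

lemma bddAbove_good (Δ r : ℕ) : BddAbove {n : ℕ | Good Δ r n} :=
  ⟨1 + Δ * (r - 1), fun _ hn => good_le hn⟩

lemma le_nMax {Δ r n : ℕ} (h : Good Δ r n) : n ≤ nMax Δ r := le_csSup (bddAbove_good Δ r) h

lemma good_zero (Δ r : ℕ) : Good Δ r 0 :=
  ⟨∅, by simp, fun x => x.elim0, fun x => x.elim0, by simp⟩

lemma good_nMax (Δ r : ℕ) : Good Δ r (nMax Δ r) :=
  Nat.sSup_mem (s := {n : ℕ | Good Δ r n}) ⟨0, good_zero Δ r⟩ (bddAbove_good Δ r)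

lemma nMax_le (Δ r : ℕ) : nMax Δ r ≤ 1 + Δ * (r - 1) := good_le (good_nMax Δ r)

/-! ### The construction -/

lemma card_filter_sum {α β : Type} [Fintype α] [Fintype β] (P : α ⊕ β → Prop) [DecidablePred P] :
    (Finset.univ.filter P).card = (Finset.univ.filter (fun a => P (Sum.inl a))).card
      + (Finset.univ.filter (fun b => P (Sum.inr b))).card := by
  simp only [Finset.card_filter, Fintype.sum_sum_type]

/-- Blown-up transversal design with `k` groups of size `m * b`, the groups being filled with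
a given hypergraph. -/
lemma construction {k m b Δ' r : ℕ} (hm : 1 ≤ m) (hkb : k * b ≤ r)
    (hcop : ∀ d : ℕ, 0 < d → d < k → Nat.Coprime d m) (hg : Good Δ' r (m * b)) :
    Good (m + Δ') r (k * (m * b)) := by
  classical
  have : NeZero m := ⟨by omega⟩
  obtain ⟨E, hE⟩ := hg
  have hcardW : Fintype.card (ZMod m × Fin b) = m * b := by
    rw [Fintype.card_prod, ZMod.card, Fintype.card_fin]
  let φ : (ZMod m × Fin b) ≃ Fin (m * b) := Fintype.equivFinOfCardEq hcardW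
  have hcardV : Fintype.card (Fin k × (ZMod m × Fin b)) = k * (m * b) := by
    rw [Fintype.card_prod, hcardW, Fintype.card_fin]
  let ψ : (Fin k × (ZMod m × Fin b)) ≃ Fin (k * (m * b)) := Fintype.equivFinOfCardEq hcardV
  let e : (ZMod m × ZMod m) ⊕ (Fin k × {e // e ∈ E}) → Finset (Fin k × (ZMod m × Fin b)) :=
    Sum.elim (fun ac => Finset.univ.filter (fun v => v.2.1 = ac.1 * ((v.1 : ℕ) : ZMod m) + ac.2))
      (fun ie => Finset.univ.filter (fun v => v.1 = ie.1 ∧ φ v.2 ∈ ie.2.1))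
  refine good_of_family (V := Fin k × (ZMod m × Fin b))
    (ι := (ZMod m × ZMod m) ⊕ (Fin k × {e // e ∈ E})) ψ.symm.toEmbedding e ?_ ?_ ?_
  · -- coverage
    have key : ∀ (i i' : Fin k) (w w' : ZMod m × Fin b), i'.val < i.val →
        ∃ ac : ZMod m × ZMod m, w.1 = ac.1 * ((i : ℕ) : ZMod m) + ac.2 ∧
          w'.1 = ac.1 * ((i' : ℕ) : ZMod m) + ac.2 := by
      intro i i' w w' hlt
      have hu : IsUnit (((i.val - i'.val : ℕ)) : ZMod m) :=
        (ZMod.isUnit_iff_coprime _ _).2 (hcop _ (by omega) (by omega))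
      obtain ⟨u, hu⟩ := hu
      have hcast : (((i.val - i'.val : ℕ)) : ZMod m) = ((i : ℕ) : ZMod m) - ((i' : ℕ) : ZMod m) := by
        rw [Nat.cast_sub hlt.le]
      refine ⟨((w.1 - w'.1) * (↑u⁻¹ : ZMod m),
        w.1 - (w.1 - w'.1) * (↑u⁻¹ : ZMod m) * ((i : ℕ) : ZMod m)), by ring, ?_⟩
      have h1 : (w.1 - w'.1) * (↑u⁻¹ : ZMod m) * (((i : ℕ) : ZMod m) - ((i' : ℕ) : ZMod m))
          = w.1 - w'.1 := by
        rw [← hcast, ← hu, mul_assoc, Units.inv_mul, mul_one]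
      have h2 : (w.1 - w'.1) * (↑u⁻¹ : ZMod m) * ((i' : ℕ) : ZMod m)
          + (w.1 - (w.1 - w'.1) * (↑u⁻¹ : ZMod m) * ((i : ℕ) : ZMod m))
          = w.1 - ((w.1 - w'.1) * (↑u⁻¹ : ZMod m) * (((i : ℕ) : ZMod m) - ((i' : ℕ) : ZMod m))) := by
        ring
      rw [h2, h1]; ring
    rintro ⟨i, w⟩ ⟨i', w'⟩ hne
    by_cases hi : i = i'
    · subst hi
      have hw : w ≠ w' := fun h => hne (by rw [h])
      obtain ⟨e', he', h1, h2⟩ := hE.covers (φ w) (φ w') (fun h => hw (φ.injective h))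
      refine ⟨Sum.inr (i, ⟨e', he'⟩), ?_, ?_⟩ <;> simp [e, h1, h2]
    · rcases lt_or_gt_of_ne (fun h => hi (Fin.ext h) : i.val ≠ i'.val) with h | h
      · obtain ⟨ac, h1, h2⟩ := key i' i w' w h
        refine ⟨Sum.inl ac, ?_, ?_⟩
        · simp only [e, Sum.elim_inl, Finset.mem_filter, Finset.mem_univ, true_and]
          exact h2
        · simp only [e, Sum.elim_inl, Finset.mem_filter, Finset.mem_univ, true_and]
          exact h1
      · obtain ⟨ac, h1, h2⟩ := key i i' w w' h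
        refine ⟨Sum.inl ac, ?_, ?_⟩
        · simp only [e, Sum.elim_inl, Finset.mem_filter, Finset.mem_univ, true_and]
          exact h1
        · simp only [e, Sum.elim_inl, Finset.mem_filter, Finset.mem_univ, true_and]
          exact h2
  · -- degrees
    rintro ⟨i, w⟩
    rw [card_filter_sum]
    refine Nat.add_le_add ?_ ?_
    · have h1 : (Finset.univ.filter (fun ac : ZMod m × ZMod m =>
          (i, w) ∈ e (Sum.inl ac))).card ≤ (Finset.univ : Finset (ZMod m)).card := by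
        refine Finset.card_le_card_of_injOn (fun ac => ac.1) (fun _ _ => Finset.mem_univ _) ?_
        rintro ⟨a, c⟩ h ⟨a', c'⟩ h' haa
        simp only [e, Sum.elim_inl, Finset.coe_filter, Finset.mem_univ, true_and,
          Set.mem_ofPred_eq, Finset.mem_filter] at h h' haa
        subst haa
        rw [h] at h'
        rw [add_left_cancel h']
      rwa [Finset.card_univ, ZMod.card] at h1
    · refine le_trans ?_ (hE.degree (φ w))
      refine Finset.card_le_card_of_injOn (fun ie => ie.2.1) ?_ ?_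
      · rintro ⟨i', e'⟩ h
        simp only [e, Sum.elim_inr, Finset.coe_filter, Finset.mem_univ, true_and,
          Set.mem_ofPred_eq, Finset.mem_filter] at h ⊢
        exact ⟨e'.2, h.2⟩
      · rintro ⟨i', e'⟩ h ⟨i'', e''⟩ h' hee
        simp only [e, Sum.elim_inr, Finset.coe_filter, Finset.mem_univ, true_and,
          Set.mem_ofPred_eq, Finset.mem_filter] at h h' hee
        rw [← h.1, ← h'.1, Subtype.ext hee]
  · -- sizes
    rintro (⟨a, c⟩ | ⟨i, e'⟩)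
    · refine le_trans ?_ hkb
      have h1 : (e (Sum.inl (a, c))).card ≤ (Finset.univ : Finset (Fin k × Fin b)).card := by
        refine Finset.card_le_card_of_injOn (fun v => (v.1, v.2.2)) (fun _ _ => Finset.mem_univ _) ?_
        rintro ⟨i, y, t⟩ h ⟨i', y', t'⟩ h' hh
        simp only [e, Sum.elim_inl, Finset.coe_filter, Finset.mem_univ, true_and,
          Set.mem_ofPred_eq, Prod.mk.injEq] at h h' hh
        obtain ⟨rfl, rfl⟩ := hh
        rw [h, h']
      simpa using h1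
    · refine le_trans ?_ (hE.rank e'.1 e'.2)
      refine Finset.card_le_card_of_injOn (fun v => φ v.2) ?_ ?_
      · rintro ⟨i', w⟩ h
        simp only [e, Sum.elim_inr, Finset.coe_filter, Finset.mem_univ, true_and,
          Set.mem_ofPred_eq] at h
        exact h.2
      · rintro ⟨i', w⟩ h ⟨i'', w'⟩ h' hh
        simp only [e, Sum.elim_inr, Finset.coe_filter, Finset.mem_univ, true_and,
          Set.mem_ofPred_eq] at h h'
        have hw : w = w' := φ.injective hh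
        rw [h.1, h'.1, hw]

/-! ### A weak bound of the right order -/

lemma doubling (r : ℕ) (i : ℕ) : Good (2 ^ (i + 1) - 1) r (2 ^ i * (2 * (r / 2))) := by
  induction i with
  | zero =>
    have h : 2 ^ 0 * (2 * (r / 2)) ≤ r := by omega
    exact good_single h
  | succ i ih =>
    have h1 : 2 ^ i * (2 * (r / 2)) = 2 ^ (i + 1) * (r / 2) := by rw [pow_succ]; ring
    rw [h1] at ih
    have h2 := construction (k := 2) (m := 2 ^ (i + 1)) (b := r / 2) (r := r)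
      (Nat.one_le_two_pow) (by omega) (by
        intro d hd hd2
        have : d = 1 := by omega
        rw [this]; exact Nat.coprime_one_left _) ih
    have h3 : 2 * (2 ^ (i + 1) * (r / 2)) = 2 ^ (i + 1) * (2 * (r / 2)) := by ring
    rw [h3] at h2
    refine good_mono h2 ?_ le_rfl le_rfl
    have h4 : 1 ≤ 2 ^ (i + 1) := Nat.one_le_two_pow
    have h5 : 2 ^ (i + 1 + 1) = 2 * 2 ^ (i + 1) := by rw [pow_succ]; ring
    omega

lemma weak {Δ r N : ℕ} (hΔ : 1 ≤ Δ) (hr : 2 ≤ r) (hN : 8 * N ≤ (Δ + 1) * r) : Good Δ r N := by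
  have h1 : 1 ≤ Nat.log 2 (Δ + 1) := Nat.log_pos (by norm_num) (by omega)
  obtain ⟨i, hi⟩ : ∃ i, Nat.log 2 (Δ + 1) = i + 1 := ⟨Nat.log 2 (Δ + 1) - 1, by omega⟩
  have h2 : 2 ^ (i + 1) ≤ Δ + 1 := by
    rw [← hi]; exact Nat.pow_log_le_self 2 (by omega)
  have h3 : Δ + 1 < 2 ^ (i + 2) := by
    have := Nat.lt_pow_succ_log_self (b := 2) (by norm_num) (Δ + 1)
    rw [hi] at this
    exact this
  refine good_mono (doubling r i) (by omega) le_rfl ?_
  have h4 : 2 ^ (i + 2) = 4 * 2 ^ i := by rw [pow_add]; ring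
  have h5 : r ≤ 4 * (r / 2) := by omega
  have h6 : (Δ + 1) * r ≤ (4 * 2 ^ i) * (4 * (r / 2)) := by
    refine Nat.mul_le_mul ?_ h5
    omega
  have h7 : (4 * 2 ^ i) * (4 * (r / 2)) = 8 * (2 ^ i * (2 * (r / 2))) := by ring
  omega

lemma coprime_of_mod {k m : ℕ} (hmod : m ≡ 1 [MOD (k - 1).factorial]) :
    ∀ d : ℕ, 0 < d → d < k → Nat.Coprime d m := by
  intro d hd hdk
  have hdvd : d ∣ (k - 1).factorial := Nat.dvd_factorial hd (by omega)
  have h1 : m ≡ 1 [MOD d] := hmod.of_dvd hdvd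
  have h2 := h1.gcd_eq
  rw [Nat.gcd_one_left] at h2
  exact Nat.Coprime.symm h2

/-- For every target `x ≥ 0` there is `m ≡ 1 (mod M)` with `x - M ≤ m ≤ x`, once `x ≥ 1`. -/
lemma exists_modEq (M : ℕ) (hM : 1 ≤ M) (x : ℝ) (hx : 1 ≤ x) :
    ∃ m : ℕ, 1 ≤ m ∧ m ≡ 1 [MOD M] ∧ (m : ℝ) ≤ x ∧ x - M ≤ m := by
  obtain ⟨t, ht⟩ : ∃ t : ℕ, t = ⌊(x - 1) / M⌋₊ := ⟨_, rfl⟩
  have hMr : (1 : ℝ) ≤ M := by exact_mod_cast hM
  have hnn : 0 ≤ (x - 1) / M := div_nonneg (by linarith) (by linarith)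
  have h1 : (t : ℝ) ≤ (x - 1) / M := by rw [ht]; exact Nat.floor_le hnn
  have h2 : (x - 1) / M < t + 1 := by rw [ht]; exact Nat.lt_floor_add_one _
  have h1' : (t : ℝ) * M ≤ x - 1 := by
    rwa [le_div_iff₀ (by linarith)] at h1
  have h2' : x - 1 < (t + 1) * M := by
    rwa [div_lt_iff₀ (by linarith)] at h2
  refine ⟨1 + M * t, by omega, ?_, ?_, ?_⟩
  · exact (Nat.modEq_iff_dvd' (by omega)).2 ⟨t, by omega⟩ |>.symm
  · push_cast; nlinarith
  · push_cast; nlinarith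

/-! ### Large `r` -/

lemma large_r (k : ℕ) (hk : 2 ≤ k) : ∃ C : ℝ, ∀ Δ r : ℕ, 2 ≤ Δ → k ≤ r →
    ((k : ℝ) / (k + 8) * Δ - C) * ((r : ℝ) - k) ≤ nMax Δ r := by
  obtain ⟨M, hM⟩ : ∃ M : ℕ, M = (k - 1).factorial := ⟨_, rfl⟩
  have hM1 : 1 ≤ M := by rw [hM]; exact Nat.factorial_pos _
  refine ⟨(M : ℝ) + 1, ?_⟩
  intro Δ r hΔ hr
  have hkr : (2 : ℝ) ≤ k := by exact_mod_cast hk
  have hΔr : (2 : ℝ) ≤ Δ := by exact_mod_cast hΔ
  have hrr : (k : ℝ) ≤ r := by exact_mod_cast hr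
  set x : ℝ := (k : ℝ) / (k + 8) * Δ with hx
  by_cases hx1 : 1 ≤ x
  · obtain ⟨m, hm1, hmod, hmx, hxm⟩ := exists_modEq M hM1 x hx1
    have hxk : x * (k + 8) = k * Δ := by
      rw [hx]; field_simp
    have hmk : (m : ℝ) * (k + 8) ≤ k * Δ := by
      rw [← hxk]
      exact mul_le_mul_of_nonneg_right hmx (by linarith)
    have hmk' : m * (k + 8) ≤ k * Δ := by exact_mod_cast hmk
    have hmΔ : m < Δ := by
      by_contra hcon
      push Not at hcon
      have h1 : Δ * (k + 8) ≤ m * (k + 8) := Nat.mul_le_mul_right _ hcon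
      have h2 : Δ * (k + 8) = k * Δ + 8 * Δ := by ring
      omega
    have hw : Good (Δ - m) r (m * (r / k)) := by
      refine weak (by omega) (by omega) ?_
      have h1 : k * (r / k) ≤ r := Nat.mul_div_le r k
      have h2 : 8 * m ≤ k * (Δ - m) := by
        rw [Nat.mul_sub]
        have : m * (k + 8) = k * m + 8 * m := by ring
        omega
      calc 8 * (m * (r / k)) = (8 * m) * (r / k) := by ring
        _ ≤ (k * (Δ - m)) * (r / k) := Nat.mul_le_mul_right _ h2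
        _ = (Δ - m) * (k * (r / k)) := by ring
        _ ≤ (Δ - m) * r := Nat.mul_le_mul_left _ h1
        _ ≤ (Δ - m + 1) * r := Nat.mul_le_mul_right _ (by omega)
    have hc := construction (k := k) (m := m) (b := r / k) (r := r) hm1 (Nat.mul_div_le r k)
      (coprime_of_mod (hM ▸ hmod)) hw
    have hΔeq : m + (Δ - m) = Δ := by omega
    rw [hΔeq] at hc
    have hle := le_nMax hc
    have hdiv : r < k * (r / k) + k := by
      have := Nat.lt_mul_div_succ r (show 0 < k by omega)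
      rw [Nat.mul_add, Nat.mul_one] at this
      exact this
    have hle' : ((k * (m * (r / k)) : ℕ) : ℝ) ≤ nMax Δ r := by exact_mod_cast hle
    refine le_trans ?_ hle'
    have h3 : ((r : ℝ) - k) ≤ (k * (r / k) : ℕ) := by
      have : (r : ℝ) < ((k * (r / k) + k : ℕ) : ℝ) := by exact_mod_cast hdiv
      push_cast at this ⊢
      linarith
    have h4 : ((k * (m * (r / k)) : ℕ) : ℝ) = (m : ℝ) * ((k * (r / k) : ℕ) : ℝ) := by
      push_cast; ring
    rw [h4]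
    have h5 : x - ((M : ℝ) + 1) ≤ m := by linarith
    calc (x - ((M : ℝ) + 1)) * ((r : ℝ) - k) ≤ (m : ℝ) * ((r : ℝ) - k) :=
          mul_le_mul_of_nonneg_right h5 (by linarith)
      _ ≤ (m : ℝ) * ((k * (r / k) : ℕ) : ℝ) := mul_le_mul_of_nonneg_left h3 (Nat.cast_nonneg m)
  · push Not at hx1
    have h1 : x - ((M : ℝ) + 1) ≤ 0 := by
      have : (0 : ℝ) ≤ M := Nat.cast_nonneg M
      linarith
    have h2 : (x - ((M : ℝ) + 1)) * ((r : ℝ) - k) ≤ 0 :=
      mul_nonpos_of_nonpos_of_nonneg h1 (by linarith)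
    exact le_trans h2 (Nat.cast_nonneg _)

/-! ### Fixed `r` -/

lemma fixed_r (r : ℕ) (hr : 2 ≤ r) (c : ℝ) (hc : c < (r : ℝ) - 1) :
    ∃ Δ₀ : ℕ, ∀ Δ : ℕ, Δ₀ ≤ Δ → c * Δ ≤ nMax Δ r := by
  have hrr : (2 : ℝ) ≤ r := by exact_mod_cast hr
  set S : Set ℝ := {c : ℝ | ∃ Δ₀ : ℕ, ∀ Δ : ℕ, Δ₀ ≤ Δ → c * Δ ≤ nMax Δ r} with hS
  have hdown : ∀ c ∈ S, ∀ c' ≤ c, c' ∈ S := by
    rintro c ⟨Δ₀, h⟩ c' hcc
    refine ⟨Δ₀, fun Δ hΔ => le_trans ?_ (h Δ hΔ)⟩
    exact mul_le_mul_of_nonneg_right hcc (Nat.cast_nonneg Δ)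
  have hbdd : BddAbove S := by
    refine ⟨(r : ℝ) + 1, ?_⟩
    rintro c ⟨Δ₀, h⟩
    by_contra hcon
    push Not at hcon
    have h1 := h (Δ₀ + 1) (by omega)
    have h2 : (nMax (Δ₀ + 1) r : ℝ) ≤ 1 + ((Δ₀ + 1 : ℕ) : ℝ) * ((r - 1 : ℕ) : ℝ) := by
      exact_mod_cast nMax_le (Δ₀ + 1) r
    have h3 : ((r - 1 : ℕ) : ℝ) = (r : ℝ) - 1 := by
      rw [Nat.cast_sub (by omega)]; simp
    rw [h3] at h2
    have h4 : (1 : ℝ) ≤ ((Δ₀ + 1 : ℕ) : ℝ) := by
      push_cast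
      have : (0 : ℝ) ≤ Δ₀ := Nat.cast_nonneg _
      linarith
    nlinarith
  have hpos : (1 / 16 : ℝ) ∈ S := by
    refine ⟨16, fun Δ hΔ => ?_⟩
    have hw : Good Δ r ((Δ + 1) * r / 8) := weak (by omega) hr (by omega)
    have h1 := le_nMax hw
    have h2 : Δ ≤ 16 * ((Δ + 1) * r / 8) := by
      have h3 : (Δ + 1) * 2 ≤ (Δ + 1) * r := Nat.mul_le_mul_left _ hr
      omega
    have h3 : (Δ : ℝ) ≤ 16 * nMax Δ r := by
      have : Δ ≤ 16 * nMax Δ r := by omega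
      exact_mod_cast this
    linarith
  have hne : S.Nonempty := ⟨_, hpos⟩
  set s := sSup S with hs
  have hs0 : (1 / 16 : ℝ) ≤ s := le_csSup hbdd hpos
  have hsr : (r : ℝ) - 1 ≤ s := by
    by_contra hcon
    push Not at hcon
    have hrs : 1 < (r : ℝ) - s := by linarith
    have h1 : s / ((r : ℝ) - s) < s := by
      rw [div_lt_iff₀ (by linarith)]
      nlinarith
    obtain ⟨c₁, hc₁S, hc₁⟩ := exists_lt_of_lt_csSup hne h1
    have hc₁pos : 0 < c₁ := lt_trans (div_pos (by linarith) (by linarith)) hc₁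
    have h2 : s < c₁ * ((r : ℝ) - s) := by
      rwa [div_lt_iff₀ (by linarith)] at hc₁
    have h3 : s < (r : ℝ) * c₁ / (1 + c₁) := by
      rw [lt_div_iff₀ (by linarith)]
      nlinarith
    obtain ⟨c₂, hc₂, hc₂'⟩ := exists_between h3
    have hmem : c₂ ∈ S := by
      obtain ⟨Δ₁, hΔ₁⟩ := hc₁S
      obtain ⟨M, hM⟩ : ∃ M : ℕ, M = (r - 1).factorial := ⟨_, rfl⟩
      have hM1 : 1 ≤ M := by rw [hM]; exact Nat.factorial_pos _
      -- thresholds
      have hgap : 0 < (r : ℝ) * c₁ / (1 + c₁) - c₂ := by linarith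
      obtain ⟨D1, hD1⟩ := exists_nat_ge ((r : ℝ) * M / ((r : ℝ) * c₁ / (1 + c₁) - c₂))
      obtain ⟨D2, hD2⟩ := exists_nat_ge ((1 + c₁) / c₁)
      obtain ⟨D3, hD3⟩ := exists_nat_ge ((1 + c₁) * ((Δ₁ : ℝ) + 1))
      refine ⟨max D1 (max D2 D3), ?_⟩
      intro Δ hΔ
      have e1 : (D1 : ℝ) ≤ Δ := by exact_mod_cast le_trans (le_max_left _ _) hΔ
      have e2 : (D2 : ℝ) ≤ Δ := by
        exact_mod_cast le_trans (le_trans (le_max_left _ _) (le_max_right _ _)) hΔ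
      have e3 : (D3 : ℝ) ≤ Δ := by
        exact_mod_cast le_trans (le_trans (le_max_right _ _) (le_max_right _ _)) hΔ
      have hc₁1 : 0 < 1 + c₁ := by linarith
      have hx1 : 1 ≤ c₁ * Δ / (1 + c₁) := by
        rw [le_div_iff₀ hc₁1]
        have : (1 + c₁) / c₁ ≤ Δ := le_trans hD2 e2
        rw [div_le_iff₀ hc₁pos] at this
        linarith
      obtain ⟨m, hm1, hmod, hmx, hxm⟩ := exists_modEq M hM1 _ hx1
      have hmx' : (m : ℝ) * (1 + c₁) ≤ c₁ * Δ := by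
        rwa [le_div_iff₀ hc₁1] at hmx
      have hΔm : (Δ₁ : ℝ) + 1 ≤ (Δ : ℝ) - m := by
        have h5 : (1 + c₁) * ((Δ₁ : ℝ) + 1) ≤ Δ := le_trans hD3 e3
        have h6 : (1 + c₁) * ((Δ₁ : ℝ) + 1) ≤ (1 + c₁) * ((Δ : ℝ) - m) := by nlinarith
        exact le_of_mul_le_mul_left h6 hc₁1
      have hmΔ : m ≤ Δ := by
        have : (m : ℝ) ≤ Δ := by
          have : (0 : ℝ) ≤ Δ₁ := Nat.cast_nonneg _
          linarith
        exact_mod_cast this
      have hcast : ((Δ - m : ℕ) : ℝ) = (Δ : ℝ) - m := by rw [Nat.cast_sub hmΔ]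
      have hΔ1 : Δ₁ ≤ Δ - m := by
        have : (Δ₁ : ℝ) ≤ ((Δ - m : ℕ) : ℝ) := by rw [hcast]; linarith
        exact_mod_cast this
      have h7 := hΔ₁ (Δ - m) hΔ1
      rw [hcast] at h7
      have h8 : (m : ℝ) ≤ nMax (Δ - m) r := by nlinarith
      have h9 : m ≤ nMax (Δ - m) r := by exact_mod_cast h8
      have hg : Good (Δ - m) r (m * 1) := by
        rw [mul_one]
        exact good_mono (good_nMax _ _) le_rfl le_rfl h9
      have hcst := construction (k := r) (m := m) (b := 1) (r := r) hm1 (by omega)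
        (coprime_of_mod (hM ▸ hmod)) hg
      have hΔeq : m + (Δ - m) = Δ := by omega
      rw [hΔeq] at hcst
      have hfin := le_nMax hcst
      have hfin' : (r : ℝ) * m ≤ nMax Δ r := by
        have : ((r * (m * 1) : ℕ) : ℝ) ≤ nMax Δ r := by exact_mod_cast hfin
        push_cast at this
        linarith
      refine le_trans ?_ hfin'
      have h10 : (r : ℝ) * M ≤ ((r : ℝ) * c₁ / (1 + c₁) - c₂) * Δ := by
        have : (r : ℝ) * M / ((r : ℝ) * c₁ / (1 + c₁) - c₂) ≤ Δ := le_trans hD1 e1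
        rw [div_le_iff₀ hgap] at this
        linarith
      have h11 : (r : ℝ) * (c₁ * Δ / (1 + c₁) - M) ≤ (r : ℝ) * m :=
        mul_le_mul_of_nonneg_left hxm (by linarith)
      have h12 : (r : ℝ) * (c₁ * Δ / (1 + c₁)) = ((r : ℝ) * c₁ / (1 + c₁)) * Δ := by
        field_simp
      nlinarith
    have := le_csSup hbdd hmem
    linarith
  obtain ⟨c', hc'S, hc'⟩ := exists_lt_of_lt_csSup hne (lt_of_lt_of_le hc hsr)
  exact hdown c' hc'S c hc'.le

/-! ### The main theorem -/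

/-- **Uniform first-order asymptotics of `n(Δ,1,r)`.**  For every `ε > 0` there is `Δ₀` such that
`|n(Δ,1,r) / (Δ (r - 1)) - 1| ≤ ε` for all `Δ ≥ Δ₀` and all `r ≥ 2`. -/
theorem main : ∀ ε : ℝ, 0 < ε → ∃ Δ₀ : ℕ, ∀ Δ r : ℕ, Δ₀ ≤ Δ → 2 ≤ r →
    |(nMax Δ r : ℝ) / ((Δ : ℝ) * ((r : ℝ) - 1)) - 1| ≤ ε := by
  intro ε hε
  -- it suffices to treat small `ε`
  obtain ⟨δ, hδ0, hδ1, hδε⟩ : ∃ δ : ℝ, 0 < δ ∧ δ ≤ 1 ∧ δ ≤ ε :=
    ⟨min ε 1, lt_min hε one_pos, min_le_right _ _, min_le_left _ _⟩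
  -- choice of `k`
  obtain ⟨k₀, hk₀⟩ := exists_nat_ge (24 / δ)
  obtain ⟨k, hk⟩ : ∃ k : ℕ, k = k₀ + 2 := ⟨_, rfl⟩
  have hk2 : 2 ≤ k := by omega
  have hkr : (2 : ℝ) ≤ k := by exact_mod_cast hk2
  have hkδ : 1 - δ / 3 ≤ (k : ℝ) / (k + 8) := by
    rw [le_div_iff₀ (by linarith)]
    have h1 : 24 / δ ≤ (k : ℝ) := by
      have : (k₀ : ℝ) ≤ k := by exact_mod_cast (by omega : k₀ ≤ k)
      linarith
    rw [div_le_iff₀ hδ0] at h1
    nlinarith
  obtain ⟨C, hC⟩ := large_r k hk2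
  obtain ⟨R₀, hR₀⟩ := exists_nat_ge (3 * (k : ℝ) / δ + 1)
  obtain ⟨D₀, hD₀⟩ := exists_nat_ge (3 * |C| / δ)
  -- lower bound for large `r`
  have hlarge : ∀ Δ r : ℕ, max D₀ 2 ≤ Δ → R₀ ≤ r →
      (1 - δ) * ((Δ : ℝ) * ((r : ℝ) - 1)) ≤ nMax Δ r := by
    intro Δ r hΔ hr
    have hΔ2 : 2 ≤ Δ := le_trans (le_max_right _ _) hΔ
    have hΔD : (D₀ : ℝ) ≤ Δ := by exact_mod_cast le_trans (le_max_left _ _) hΔ
    have hrR : (R₀ : ℝ) ≤ r := by exact_mod_cast hr
    have hΔr : (2 : ℝ) ≤ Δ := by exact_mod_cast hΔ2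
    have h1 : 3 * (k : ℝ) / δ ≤ (r : ℝ) - 1 := by linarith
    have h1' : 3 * (k : ℝ) ≤ δ * ((r : ℝ) - 1) := by
      rw [div_le_iff₀ hδ0] at h1; linarith
    have h2 : 3 * |C| / δ ≤ Δ := le_trans hD₀ hΔD
    have h2' : 3 * |C| ≤ δ * Δ := by
      rw [div_le_iff₀ hδ0] at h2; linarith
    have hr1 : 0 ≤ (r : ℝ) - 1 := by nlinarith
    have hkler : (k : ℝ) ≤ r := by nlinarith
    have hkler' : k ≤ r := by exact_mod_cast hkler
    have h3 := hC Δ r hΔ2 hkler'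
    have h4 : (1 - δ / 3) * ((r : ℝ) - 1) ≤ (r : ℝ) - k := by nlinarith
    have h5 : (1 - 2 * δ / 3) * (Δ : ℝ) ≤ (k : ℝ) / (k + 8) * Δ - C := by
      have h6 : (1 - δ / 3) * (Δ : ℝ) ≤ (k : ℝ) / (k + 8) * Δ :=
        mul_le_mul_of_nonneg_right hkδ (by linarith)
      have h7 : C ≤ |C| := le_abs_self C
      nlinarith
    have h8 : 0 ≤ (1 - δ / 3) * ((r : ℝ) - 1) := mul_nonneg (by linarith) hr1
    have h9 : 0 ≤ (k : ℝ) / (k + 8) * Δ - C := by
      refine le_trans (mul_nonneg (by linarith) (by linarith)) h5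
    calc (1 - δ) * ((Δ : ℝ) * ((r : ℝ) - 1))
        ≤ ((1 - 2 * δ / 3) * Δ) * ((1 - δ / 3) * ((r : ℝ) - 1)) := by
          have : 0 ≤ (Δ : ℝ) * ((r : ℝ) - 1) := mul_nonneg (by linarith) hr1
          nlinarith [mul_nonneg (mul_nonneg hδ0.le hδ0.le) this]
      _ ≤ ((k : ℝ) / (k + 8) * Δ - C) * ((1 - δ / 3) * ((r : ℝ) - 1)) :=
          mul_le_mul_of_nonneg_right h5 h8
      _ ≤ ((k : ℝ) / (k + 8) * Δ - C) * ((r : ℝ) - k) := mul_le_mul_of_nonneg_left h4 h9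
      _ ≤ nMax Δ r := h3
  -- lower bound for small `r`
  have hsmall : ∀ r : ℕ, ∃ Δ₀ : ℕ, 2 ≤ r → ∀ Δ : ℕ, Δ₀ ≤ Δ →
      (1 - δ) * ((Δ : ℝ) * ((r : ℝ) - 1)) ≤ nMax Δ r := by
    intro r
    by_cases hr : 2 ≤ r
    · have hrr : (2 : ℝ) ≤ r := by exact_mod_cast hr
      obtain ⟨Δ₀, h⟩ := fixed_r r hr ((1 - δ) * ((r : ℝ) - 1)) (by nlinarith)
      refine ⟨Δ₀, fun _ Δ hΔ => ?_⟩
      have := h Δ hΔ
      nlinarith
    · exact ⟨0, fun h => absurd h hr⟩
  choose F hF using hsmall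
  obtain ⟨D₁, hD₁⟩ := exists_nat_ge (1 / δ)
  refine ⟨max (max D₀ 2) (max D₁ ((Finset.range R₀).sup F)), ?_⟩
  intro Δ r hΔ hr
  have hΔa : max D₀ 2 ≤ Δ := le_trans (le_max_left _ _) hΔ
  have hΔb : D₁ ≤ Δ := le_trans (le_trans (le_max_left _ _) (le_max_right _ _)) hΔ
  have hΔc : (Finset.range R₀).sup F ≤ Δ :=
    le_trans (le_trans (le_max_right _ _) (le_max_right _ _)) hΔ
  have hrr : (2 : ℝ) ≤ r := by exact_mod_cast hr
  have hΔr : (2 : ℝ) ≤ Δ := by exact_mod_cast le_trans (le_max_right _ _) hΔa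
  have hlow : (1 - δ) * ((Δ : ℝ) * ((r : ℝ) - 1)) ≤ nMax Δ r := by
    by_cases hrR : R₀ ≤ r
    · exact hlarge Δ r hΔa hrR
    · push Not at hrR
      exact hF r hr Δ (le_trans (Finset.le_sup (f := F) (Finset.mem_range.2 hrR)) hΔc)
  have hup : (nMax Δ r : ℝ) ≤ 1 + (Δ : ℝ) * ((r : ℝ) - 1) := by
    have h1 : (nMax Δ r : ℝ) ≤ 1 + (Δ : ℝ) * ((r - 1 : ℕ) : ℝ) := by exact_mod_cast nMax_le Δ r
    have h3 : ((r - 1 : ℕ) : ℝ) = (r : ℝ) - 1 := by
      rw [Nat.cast_sub (by omega)]; simp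
    rwa [h3] at h1
  have hpos : 0 < (Δ : ℝ) * ((r : ℝ) - 1) := mul_pos (by linarith) (by linarith)
  have h1δ : 1 ≤ δ * ((Δ : ℝ) * ((r : ℝ) - 1)) := by
    have h1 : 1 / δ ≤ (Δ : ℝ) := le_trans hD₁ (by exact_mod_cast hΔb)
    rw [div_le_iff₀ hδ0] at h1
    have h2 : (Δ : ℝ) * δ ≤ (Δ : ℝ) * δ * ((r : ℝ) - 1) :=
      le_mul_of_one_le_right (mul_nonneg (by linarith) hδ0.le) (by linarith)
    nlinarith
  rw [abs_le]
  constructor
  · have h2 : 1 - δ ≤ (nMax Δ r : ℝ) / ((Δ : ℝ) * ((r : ℝ) - 1)) := by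
      rw [le_div_iff₀ hpos]; exact hlow
    linarith
  · have h2 : (nMax Δ r : ℝ) / ((Δ : ℝ) * ((r : ℝ) - 1)) ≤ 1 + δ := by
      rw [div_le_iff₀ hpos]; nlinarith
    linarith

end Pool.Agent.Helper67.UA
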